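import Mathlib
import Pool.Agent.X47.FCBase

/-!
# The Fermat-Catalan conjecture when one base and the neighbours of the others share a large divisor

There is a constant `K` such that only finitely many value triples come from solutions of the
Fermat-Catalan equation in which one of the three bases, with exponent `e ≥ 3`, has a divisor `m` such
that the two other bases are congruent to `1` or `-1` modulo `m` and are at most
`m ^ (3/2) / (log M) ^ K` (if `e = 3`) or `m ^ 2 / (log M) ^ K` (if `e ≥ 4`), where `M` is the largest base.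
All exponents are free. For example: for every `η > 0` there are only finitely many solutions with
bases `n`, `a n ± 1`, `b n ± 1` in any order, `1 ≤ a, b ≤ n ^ (1/2 - η)`, where `n` has an exponent `≥ 3`.
-/

set_option autoImplicit false

namespace Pool.Agent.Results.MP_509488_nt.CongruentBases

/-- `(x, y, z, p, q, r)` is a solution of the Fermat-Catalan equation: `x`, `y`, `z` are positive
integers with `gcd (x, y, z) = 1`, the exponents `p`, `q`, `r` are positive integers with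
`1/p + 1/q + 1/r ≤ 1`, and `x ^ p + y ^ q = z ^ r`. -/
def Solution (x y z p q r : ℕ) : Prop :=
  0 < x ∧ 0 < y ∧ 0 < z ∧ Nat.gcd x (Nat.gcd y z) = 1 ∧ 0 < p ∧ 0 < q ∧ 0 < r ∧
    (1 : ℚ) / p + 1 / q + 1 / r ≤ 1 ∧ x ^ p + y ^ q = z ^ r

/-- `u` is congruent to `1` or to `-1` modulo `m`. -/
def PlusMinusOne (m u : ℕ) : Prop := (m : ℤ) ∣ (u : ℤ) - 1 ∨ (m : ℤ) ∣ (u : ℤ) + 1

/-- `u ≤ m ^ (min (e, 4) / 2) / (log M) ^ K` (stated for the squares of both sides). -/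
def Small (M K e m u : ℕ) : Prop := ((u : ℝ) * Real.log M ^ K) ^ 2 ≤ (m : ℝ) ^ min e 4

/-- The base `w` with exponent `e ≥ 3` has a divisor `m` such that the other bases `u`, `v` are
congruent to `1` or to `-1` modulo `m` and at most `m ^ (min (e, 4) / 2) / (log M) ^ K`. -/
def Special (M K w e u v : ℕ) : Prop :=
  3 ≤ e ∧ ∃ m : ℕ, m ∣ w ∧ PlusMinusOne m u ∧ PlusMinusOne m v ∧ Small M K e m u ∧ Small M K e m v

theorem expand_one (X : ℤ) (n : ℕ) : ∃ R : ℤ, (1 + X) ^ n = 1 + n * X + X ^ 2 * R := by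
  induction n with
  | zero => exact ⟨0, by simp⟩
  | succ k ih =>
    obtain ⟨R, hR⟩ := ih
    exact ⟨R + k + X * R, by rw [pow_succ, hR]; push_cast; ring⟩

theorem expand_two (X : ℤ) (n : ℕ) : ∃ R : ℤ, 2 * (1 + X) ^ n =
    2 + 2 * n * X + n * (n - 1) * X ^ 2 + X ^ 3 * R := by
  induction n with
  | zero => exact ⟨0, by simp⟩
  | succ k ih =>
    obtain ⟨R, hR⟩ := ih
    exact ⟨R + k * (k - 1) + X * R, by
      rw [pow_succ, ← mul_assoc, hR]; push_cast; ring⟩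

theorem core {m e f g : ℕ} {w U V a b σ : ℤ} (hm : 0 < m) (he : 3 ≤ e) (hf : 0 < f) (hg : 0 < g)
    (hU : U = 1 + m * a) (hV : V = 1 + m * b) (hw : (m : ℤ) ∣ w)
    (heq : w ^ e = σ * (U ^ f - V ^ g)) (hσ : σ = 1 ∨ σ = -1) (hw0 : w ≠ 0)
    (hsmall : f * |a| + g * |b| < m) :
    ∃ N t : ℤ, |N| ≤ f * g * (f + g) ∧ |t| ≤ |a| ∧ (m : ℤ) ≤ t ^ 2 * |N| ∧
      (4 ≤ e → (m : ℤ) ≤ |t| * |N|) := by
  have hm0 : (0 : ℤ) < m := by exact_mod_cast hm
  have hσ2 : σ * σ = 1 := by rcases hσ with rfl | rfl <;> norm_num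
  have hdiff : U ^ f - V ^ g = σ * w ^ e := by
    rw [heq, ← mul_assoc, hσ2, one_mul]
  have hwe : w ^ e ≠ 0 := pow_ne_zero _ hw0
  have hmw : ∀ k : ℕ, k ≤ e → (m : ℤ) ^ k ∣ U ^ f - V ^ g := by
    intro k hk
    rw [hdiff]
    exact ((pow_dvd_pow (m : ℤ) hk).trans (pow_dvd_pow_of_dvd hw e)).mul_left _
  -- the linear relation
  have hlin : (f : ℤ) * a = g * b := by
    obtain ⟨R1, h1⟩ := expand_one (m * a) f
    obtain ⟨R2, h2⟩ := expand_one (m * b) g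
    obtain ⟨c, hc⟩ := hmw 2 (by omega)
    rw [hU, hV, h1, h2] at hc
    have h3 : (m : ℤ) * (f * a - g * b) = m * (m * (c - a ^ 2 * R1 + b ^ 2 * R2)) := by
      linear_combination hc
    have h4 : (f : ℤ) * a - g * b = m * (c - a ^ 2 * R1 + b ^ 2 * R2) :=
      mul_left_cancel₀ hm0.ne' h3
    have h5 : |(f : ℤ) * a - g * b| < m := by
      calc |(f : ℤ) * a - g * b| ≤ |(f : ℤ) * a| + |(g : ℤ) * b| := abs_sub _ _
        _ = f * |a| + g * |b| := by rw [abs_mul, abs_mul, Nat.abs_cast, Nat.abs_cast]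
        _ < m := hsmall
    have h6 : (f : ℤ) * a - g * b = 0 :=
      Int.eq_zero_of_abs_lt_dvd ⟨_, h4⟩ h5
    linarith
  obtain ⟨f', g', hco, hf', hg'⟩ := Nat.exists_coprime f g
  obtain ⟨d, hd⟩ : ∃ d, d = Nat.gcd f g := ⟨_, rfl⟩
  rw [← hd] at hf' hg'
  have hd0 : 0 < d := by rw [hd]; exact Nat.gcd_pos_of_pos_left _ hf
  have hf0 : 0 < f' := Nat.pos_of_ne_zero (by rintro rfl; omega)
  have hg0 : 0 < g' := Nat.pos_of_ne_zero (by rintro rfl; omega)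
  have hdz : (d : ℤ) ≠ 0 := by exact_mod_cast hd0.ne'
  have hfz : (f : ℤ) = f' * d := by exact_mod_cast hf'
  have hgz : (g : ℤ) = g' * d := by exact_mod_cast hg'
  have hlin' : (f' : ℤ) * a = g' * b := by
    apply mul_left_cancel₀ hdz
    rw [hfz, hgz] at hlin
    linear_combination hlin
  have hdvd : (g' : ℤ) ∣ a := by
    have h1 : (g' : ℤ) ∣ f' * a := ⟨b, hlin'⟩
    exact (Nat.isCoprime_iff_coprime.2 hco.symm).dvd_of_dvd_mul_left h1
  obtain ⟨t, ht⟩ := hdvd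
  have hbt : b = f' * t := by
    have hg'z : (g' : ℤ) ≠ 0 := by exact_mod_cast hg0.ne'
    apply mul_left_cancel₀ hg'z
    rw [← hlin', ht]; ring
  have ht0 : t ≠ 0 := by
    rintro rfl
    apply hwe
    rw [heq, hU, hV, ht, hbt]
    simp
  have hfg : f' ≠ g' := by
    intro h
    apply hwe
    have h1 : f = g := by rw [hf', hg', h]
    have h2 : a = b := by rw [ht, hbt, h]
    rw [heq, hU, hV, h1, h2]
    simp
  obtain ⟨N, hN⟩ : ∃ N : ℤ, N = d * f' * g' * (f' - g') := ⟨_, rfl⟩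
  have hN0 : N ≠ 0 := by
    rw [hN]
    have h1 : (f' : ℤ) - g' ≠ 0 := sub_ne_zero.2 (by exact_mod_cast hfg)
    have h2 : (d : ℤ) * f' * g' ≠ 0 := by
      have h3 : d * f' * g' ≠ 0 := by positivity
      exact_mod_cast h3
    exact mul_ne_zero h2 h1
  -- the second order expansion
  obtain ⟨R, hR⟩ : ∃ R : ℤ, 2 * (U ^ f - V ^ g) = (m * t) ^ 2 * (N + m * t * R) := by
    obtain ⟨R1, h1⟩ := expand_two (m * a) f
    obtain ⟨R2, h2⟩ := expand_two (m * b) g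
    refine ⟨g' ^ 3 * R1 - f' ^ 3 * R2, ?_⟩
    rw [mul_sub, hU, hV, h1, h2, hN, ht, hbt, hfz, hgz]
    ring
  refine ⟨N, t, ?_, ?_, ?_, ?_⟩
  · -- the size of `N`
    rw [hN, abs_mul]
    have h1 : |((f' : ℤ) - g')| ≤ f + g := by
      have h2 : (f' : ℤ) ≤ f := by
        have : f' ≤ f := by rw [hf']; exact Nat.le_mul_of_pos_right _ hd0
        exact_mod_cast this
      have h3 : (g' : ℤ) ≤ g := by
        have : g' ≤ g := by rw [hg']; exact Nat.le_mul_of_pos_right _ hd0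
        exact_mod_cast this
      have h6 : (0 : ℤ) ≤ f' := by positivity
      have h7 : (0 : ℤ) ≤ g' := by positivity
      rw [abs_le]
      constructor <;> linarith
    have h4 : |(d : ℤ) * f' * g'| ≤ f * g := by
      rw [abs_of_nonneg (by positivity), hfz, hgz]
      have h5 : d * f' * g' ≤ (f' * d) * (g' * d) := by
        calc d * f' * g' = d * f' * g' * 1 := by ring
          _ ≤ d * f' * g' * d := Nat.mul_le_mul_left _ hd0
          _ = _ := by ring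
      exact_mod_cast h5
    exact mul_le_mul h4 h1 (abs_nonneg _) (by positivity)
  · rw [ht, abs_mul, Nat.abs_cast]
    exact le_mul_of_one_le_left (abs_nonneg _) (by exact_mod_cast hg0)
  · obtain ⟨c, hc⟩ := hmw 3 he
    have h1 : (m : ℤ) ^ 2 * (t ^ 2 * (N + m * t * R)) = m ^ 2 * (m * (2 * c)) := by
      linear_combination 2 * hc - hR
    have h2 : t ^ 2 * (N + m * t * R) = m * (2 * c) :=
      mul_left_cancel₀ (pow_ne_zero 2 hm0.ne') h1
    have h3 : (m : ℤ) ∣ t ^ 2 * N := ⟨2 * c - t ^ 3 * R, by linear_combination h2⟩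
    have h4 := Int.le_of_dvd (abs_pos.2 (mul_ne_zero (pow_ne_zero 2 ht0) hN0))
      ((dvd_abs _ _).2 h3)
    rwa [abs_mul, abs_of_nonneg (by positivity : (0 : ℤ) ≤ t ^ 2)] at h4
  · intro he4
    obtain ⟨c, hc⟩ := hmw 4 he4
    have h1 : (m : ℤ) ^ 2 * (t ^ 2 * (N + m * t * R)) = m ^ 2 * (m ^ 2 * (2 * c)) := by
      linear_combination 2 * hc - hR
    have h2 : t ^ 2 * (N + m * t * R) = m ^ 2 * (2 * c) :=
      mul_left_cancel₀ (pow_ne_zero 2 hm0.ne') h1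
    -- remove the greatest common divisor
    obtain ⟨δ, hδ⟩ : ∃ δ, δ = Int.gcd (m : ℤ) t := ⟨_, rfl⟩
    have hδ0 : 0 < δ := by rw [hδ]; exact Int.gcd_pos_of_ne_zero_left _ hm0.ne'
    have hδz : (0 : ℤ) < δ := by exact_mod_cast hδ0
    obtain ⟨μ, τ, hcop, hμ, hτ⟩ : ∃ μ τ : ℤ, IsCoprime μ τ ∧ (m : ℤ) = μ * δ ∧ t = τ * δ := by
      obtain ⟨k1, k2, k3⟩ := Int.exists_gcd_one (m := (m : ℤ)) (n := t) (by rw [← hδ]; exact hδ0)
      obtain ⟨k4, k5, k6⟩ := k3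
      rw [← hδ] at k5 k6
      exact ⟨k1, k2, Int.isCoprime_iff_gcd_eq_one.2 k4, k5, k6⟩
    have hμ0 : 0 < μ := by
      by_contra hcon
      have : μ * δ ≤ 0 := mul_nonpos_of_nonpos_of_nonneg (not_lt.1 hcon) hδz.le
      linarith
    have h3 : (δ : ℤ) ^ 2 * (τ ^ 2 * (N + m * t * R)) = δ ^ 2 * (μ ^ 2 * (2 * c)) := by
      calc (δ : ℤ) ^ 2 * (τ ^ 2 * (N + m * t * R)) = (τ * δ) ^ 2 * (N + m * t * R) := by ring
        _ = t ^ 2 * (N + m * t * R) := by rw [← hτ]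
        _ = m ^ 2 * (2 * c) := h2
        _ = (μ * δ) ^ 2 * (2 * c) := by rw [← hμ]
        _ = _ := by ring
    have h4 : τ ^ 2 * (N + m * t * R) = μ ^ 2 * (2 * c) :=
      mul_left_cancel₀ (pow_ne_zero 2 hδz.ne') h3
    have h5 : μ ^ 2 ∣ N + m * t * R :=
      (IsCoprime.pow hcop : IsCoprime (μ ^ 2) (τ ^ 2)).dvd_of_dvd_mul_left ⟨_, h4⟩
    have h6 : μ ∣ N := by
      have h7 : μ ∣ N + m * t * R := (dvd_pow_self μ two_ne_zero).trans h5
      have h8 : μ ∣ m * t * R := by rw [hμ]; exact ⟨δ * t * R, by ring⟩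
      exact (dvd_add_left h8).1 h7
    have h7 : μ ≤ |N| := Int.le_of_dvd (abs_pos.2 hN0) ((dvd_abs _ _).2 h6)
    have h8 : (δ : ℤ) ≤ |t| := by
      rw [hτ, abs_mul, abs_of_pos hδz]
      have : 1 ≤ |τ| := Int.one_le_abs (by rintro rfl; exact ht0 (by rw [hτ, zero_mul]))
      nlinarith
    rw [hμ]
    calc μ * δ ≤ |N| * |t| := mul_le_mul h7 h8 hδz.le (abs_nonneg _)
      _ = _ := mul_comm _ _

theorem sign_pow {ε : ℤ} (h : ε = 1 ∨ ε = -1) (n : ℕ) : ε ^ n = 1 ∨ ε ^ n = -1 := by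
  rcases h with rfl | rfl
  · left; simp
  · exact neg_one_pow_eq_or ℤ n

theorem exists_sign {m u : ℕ} (h : PlusMinusOne m u) :
    ∃ ε : ℤ, (ε = 1 ∨ ε = -1) ∧ ∃ a : ℤ, ε * u = 1 + m * a := by
  rcases h with ⟨c, hc⟩ | ⟨c, hc⟩
  · exact ⟨1, Or.inl rfl, c, by linarith⟩
  · exact ⟨-1, Or.inr rfl, -c, by linear_combination (-1 : ℤ) * hc⟩

/-- The size of the quotient. -/
theorem quot_bound {m u : ℕ} {ε a : ℤ} (hε : ε = 1 ∨ ε = -1) (hu : 0 < u)
    (h : ε * u = 1 + m * a) : (m : ℤ) * |a| ≤ 2 * u := by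
  have h1 : (m : ℤ) * |a| = |(m : ℤ) * a| := by rw [abs_mul, Nat.abs_cast]
  have h2 : (m : ℤ) * a = ε * u - 1 := by linarith
  have h3 : |ε * (u : ℤ)| = u := by
    rcases hε with rfl | rfl <;> simp
  have hu' : (1 : ℤ) ≤ u := by exact_mod_cast hu
  rw [h1, h2]
  calc |ε * (u : ℤ) - 1| ≤ |ε * (u : ℤ)| + |(1 : ℤ)| := abs_sub _ _
    _ ≤ 2 * u := by rw [h3, abs_one]; linarith

theorem contra {M κ w e u f v g : ℕ} {C L : ℝ} {s₁ s₂ : ℤ} (hC : 0 < C) (hL : L = Real.log M)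
    (hL5 : 5 ≤ L) (hLC : 8 * (C + 1) ^ 3 < L) (hw : 0 < w) (hu : 0 < u) (hv : 0 < v) (hf : 0 < f)
    (hg : 0 < g) (h₁ : s₁ = 1 ∨ s₁ = -1) (h₂ : s₂ = 1 ∨ s₂ = -1)
    (heq : (w : ℤ) ^ e = s₁ * (u : ℤ) ^ f + s₂ * (v : ℤ) ^ g)
    (hfE : 2 ≤ u → (f : ℝ) ≤ C * L ^ κ) (hgE : 2 ≤ v → (g : ℝ) ≤ C * L ^ κ)
    (hsp : Special M (3 * κ + 1) w e u v) : False := by
  obtain ⟨he, m, hmw, hmu, hmv, su, sv⟩ := hsp
  unfold Small at su sv
  rw [← hL] at su sv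
  have hL0 : 0 < L := by linarith
  have hL1 : 1 ≤ L := by linarith
  obtain ⟨E, hE⟩ : ∃ E, E = (C + 1) * L ^ κ := ⟨_, rfl⟩
  have hLκ : 1 ≤ L ^ κ := one_le_pow₀ hL1
  have hE1 : 1 ≤ E := by rw [hE]; nlinarith
  have hE0 : 0 < E := by linarith
  -- `m` is large
  have hLK : (5 : ℝ) ≤ L ^ (3 * κ + 1) := by
    calc (5 : ℝ) ≤ L := hL5
      _ ≤ L ^ (3 * κ + 1) := le_self_pow₀ hL1 (by omega)
  have hLKE : 8 * E ^ 3 < L ^ (3 * κ + 1) := by
    have h3 : E ^ 3 = (C + 1) ^ 3 * L ^ (3 * κ) := by rw [hE, mul_pow, ← pow_mul, mul_comm κ 3]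
    have h4 : 0 < L ^ (3 * κ) := by positivity
    rw [h3, pow_succ]
    calc 8 * ((C + 1) ^ 3 * L ^ (3 * κ)) = 8 * (C + 1) ^ 3 * L ^ (3 * κ) := by ring
      _ < L * L ^ (3 * κ) := mul_lt_mul_of_pos_right hLC h4
      _ = _ := mul_comm _ _
  have hu1 : (1 : ℝ) ≤ u := by exact_mod_cast hu
  have hv1 : (1 : ℝ) ≤ v := by exact_mod_cast hv
  have hm3 : 3 ≤ m := by
    by_contra hcon
    have h1 : (m : ℝ) ≤ 2 := by
      have : m ≤ 2 := by omega
      exact_mod_cast this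
    have h2 : (m : ℝ) ^ min e 4 ≤ 2 ^ 4 := by
      calc (m : ℝ) ^ min e 4 ≤ 2 ^ min e 4 := pow_le_pow_left₀ (by positivity) h1 _
        _ ≤ 2 ^ 4 := pow_le_pow_right₀ (by norm_num) (min_le_right _ _)
    have h3 : (5 : ℝ) ^ 2 ≤ ((u : ℝ) * L ^ (3 * κ + 1)) ^ 2 := by
      apply pow_le_pow_left₀ (by norm_num)
      calc (5 : ℝ) = 1 * 5 := by norm_num
        _ ≤ (u : ℝ) * L ^ (3 * κ + 1) := mul_le_mul hu1 hLK (by norm_num) (by positivity)
    norm_num at h2 h3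
    linarith
  have hm1 : (1 : ℝ) ≤ m := by
    have : 1 ≤ m := by omega
    exact_mod_cast this
  have hm0 : (0 : ℝ) < m := by linarith
  -- the size of the bases
  have hsize : ∀ a : ℕ, ((a : ℝ) * L ^ (3 * κ + 1)) ^ 2 ≤ (m : ℝ) ^ min e 4 →
      (a : ℝ) * L ^ (3 * κ + 1) ≤ (m : ℝ) ^ 2 := by
    intro a ha
    have h1 : ((a : ℝ) * L ^ (3 * κ + 1)) ^ 2 ≤ ((m : ℝ) ^ 2) ^ 2 := by
      rw [← pow_mul]
      exact ha.trans (pow_le_pow_right₀ hm1 (min_le_right _ _))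
    exact le_of_sq_le_sq h1 (by positivity)
  have su2 := hsize u su
  have sv2 := hsize v sv
  -- the signs
  obtain ⟨ε₁, hε₁, a, ha⟩ := exists_sign hmu
  obtain ⟨ε₂, hε₂, b, hb⟩ := exists_sign hmv
  have hup : ∀ (ε : ℤ) (u : ℕ) (n : ℕ), (ε = 1 ∨ ε = -1) → (u : ℤ) ^ n = ε ^ n * (ε * u) ^ n := by
    intro ε u n hε
    rcases hε with rfl | rfl
    · simp
    · rw [← mul_pow]; congr 1; ring
  have heq2 : (w : ℤ) ^ e = s₁ * ε₁ ^ f * (1 + m * a) ^ f + s₂ * ε₂ ^ g * (1 + m * b) ^ g := by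
    rw [heq, hup ε₁ u f hε₁, hup ε₂ v g hε₂, ha, hb]; ring
  have hmw' : (m : ℤ) ∣ w := by exact_mod_cast hmw
  have hsgn : s₁ * ε₁ ^ f + s₂ * ε₂ ^ g = 0 := by
    have h1 : (m : ℤ) ∣ s₁ * ε₁ ^ f + s₂ * ε₂ ^ g := by
      obtain ⟨R1, k1⟩ := expand_one (m * a) f
      obtain ⟨R2, k2⟩ := expand_one (m * b) g
      obtain ⟨c, hc⟩ := hmw'.trans (dvd_pow_self (w : ℤ) (by omega : e ≠ 0))
      rw [heq2, k1, k2] at hc
      exact ⟨c - s₁ * ε₁ ^ f * (f * a + m * a ^ 2 * R1) - s₂ * ε₂ ^ g * (g * b + m * b ^ 2 * R2),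
        by linear_combination hc⟩
    have h2 : |s₁ * ε₁ ^ f + s₂ * ε₂ ^ g| < m := by
      have h3 : (3 : ℤ) ≤ m := by exact_mod_cast hm3
      have h4 : |s₁ * ε₁ ^ f + s₂ * ε₂ ^ g| ≤ 2 := by
        rcases h₁ with rfl | rfl <;> rcases h₂ with rfl | rfl <;>
          rcases sign_pow hε₁ f with h5 | h5 <;> rcases sign_pow hε₂ g with h6 | h6 <;>
          rw [h5, h6] <;> norm_num
      linarith
    exact Int.eq_zero_of_abs_lt_dvd h1 h2
  obtain ⟨σ, hσ⟩ : ∃ σ, σ = s₁ * ε₁ ^ f := ⟨_, rfl⟩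
  have hσ1 : σ = 1 ∨ σ = -1 := by
    rw [hσ]
    rcases h₁ with rfl | rfl <;> rcases sign_pow hε₁ f with h5 | h5 <;> rw [h5] <;> norm_num
  have heq3 : (w : ℤ) ^ e = σ * ((1 + m * a) ^ f - (1 + m * b) ^ g) := by
    rw [heq2, ← hσ]
    have : s₂ * ε₂ ^ g = -σ := by rw [hσ]; linarith
    rw [this]; ring
  -- exponents of a base `1` are replaced by `1`
  have hexp : ∀ (u n : ℕ) (ε a : ℤ), 0 < u → 0 < n → (ε = 1 ∨ ε = -1) → ε * u = 1 + m * a →
      (2 ≤ u → (n : ℝ) ≤ C * L ^ κ) →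
      ∃ k : ℕ, 0 < k ∧ (k : ℝ) ≤ E ∧ (1 + m * a) ^ n = (1 + m * a) ^ k := by
    intro u n ε a hu hn hε h hb
    rcases Nat.lt_or_ge u 2 with h1 | h1
    · refine ⟨1, by norm_num, by simpa using hE1, ?_⟩
      have hu1 : u = 1 := by omega
      rw [hu1] at h
      have h0 : (1 : ℤ) + m * a = 1 := by
        rcases hε with rfl | rfl
        · push_cast at h; linarith
        · exfalso
          have h2 : (m : ℤ) ∣ 2 := ⟨-a, by push_cast at h; linarith⟩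
          have h3 := Int.le_of_dvd (by norm_num) h2
          have h4 : (3 : ℤ) ≤ m := by exact_mod_cast hm3
          linarith
      rw [h0]; simp
    · refine ⟨n, hn, ?_, rfl⟩
      refine (hb h1).trans ?_
      rw [hE]
      exact mul_le_mul_of_nonneg_right (by linarith) (by positivity)
  obtain ⟨f', hf'0, hf'E, hf'⟩ := hexp u f ε₁ a hu hf hε₁ ha hfE
  obtain ⟨g', hg'0, hg'E, hg'⟩ := hexp v g ε₂ b hv hg hε₂ hb hgE
  rw [hf', hg'] at heq3
  have ha2 : (m : ℝ) * |(a : ℝ)| ≤ 2 * u := by exact_mod_cast quot_bound hε₁ hu ha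
  have hb2 : (m : ℝ) * |(b : ℝ)| ≤ 2 * v := by exact_mod_cast quot_bound hε₂ hv hb
  have hquot : ∀ (c : ℝ) (k u : ℕ), 0 ≤ c → (m : ℝ) * c ≤ 2 * u → (k : ℝ) ≤ E →
      (u : ℝ) * L ^ (3 * κ + 1) ≤ (m : ℝ) ^ 2 → 2 * (k * c) < m := by
    intro c k u hc0 hc hk hu
    have h1 : E ≤ E ^ 3 := le_self_pow₀ hE1 (by norm_num)
    have h2 : (m : ℝ) * (c * L ^ (3 * κ + 1)) ≤ m * (2 * m) := by
      calc (m : ℝ) * (c * L ^ (3 * κ + 1)) = (m * c) * L ^ (3 * κ + 1) := by ring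
        _ ≤ (2 * u) * L ^ (3 * κ + 1) := mul_le_mul_of_nonneg_right hc (by positivity)
        _ = 2 * (u * L ^ (3 * κ + 1)) := by ring
        _ ≤ 2 * (m : ℝ) ^ 2 := by linarith
        _ = _ := by ring
    have h3 : c * L ^ (3 * κ + 1) ≤ 2 * m := le_of_mul_le_mul_left h2 hm0
    rcases eq_or_lt_of_le hc0 with h0 | h0
    · rw [← h0]; simp; exact_mod_cast (by omega : 0 < m)
    have h4 : c * (8 * E) < 2 * m := by
      refine lt_of_lt_of_le (mul_lt_mul_of_pos_left ?_ h0) h3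
      linarith
    have h5 : (k : ℝ) * c ≤ E * c := mul_le_mul_of_nonneg_right hk hc0
    nlinarith
  have hq1 := hquot |(a : ℝ)| f' u (abs_nonneg _) ha2 hf'E su2
  have hq2 := hquot |(b : ℝ)| g' v (abs_nonneg _) hb2 hg'E sv2
  have hsmall : (f' : ℤ) * |a| + g' * |b| < m := by
    have : (f' : ℝ) * |(a : ℝ)| + g' * |(b : ℝ)| < m := by linarith
    exact_mod_cast this
  obtain ⟨N, t, hN, hta, ht3, ht4⟩ := core (by omega : 0 < m) he hf'0 hg'0 rfl rfl hmw' heq3 hσ1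
    (by exact_mod_cast hw.ne') hsmall
  -- the sizes
  have hNr : |(N : ℝ)| ≤ 2 * E ^ 3 := by
    have h1 : |(N : ℝ)| ≤ f' * g' * (f' + g') := by exact_mod_cast hN
    refine h1.trans ?_
    have h2 : (f' : ℝ) * g' ≤ E * E := mul_le_mul hf'E hg'E (by positivity) hE0.le
    have h3 : (f' : ℝ) + g' ≤ 2 * E := by linarith
    calc (f' : ℝ) * g' * (f' + g') ≤ E * E * (2 * E) :=
          mul_le_mul h2 h3 (by positivity) (by positivity)
      _ = _ := by ring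
  have htr : (m : ℝ) * |(t : ℝ)| ≤ 2 * u := by
    have h1 : |(t : ℝ)| ≤ |(a : ℝ)| := by exact_mod_cast hta
    exact (mul_le_mul_of_nonneg_left h1 hm0.le).trans ha2
  have ht0 : 0 ≤ |(t : ℝ)| := abs_nonneg _
  have hN0 : 0 ≤ |(N : ℝ)| := abs_nonneg _
  rcases Nat.lt_or_ge e 4 with h4 | h4
  · -- `e = 3`
    have he3 : min e 4 = 3 := by omega
    rw [he3] at su
    have h5 : (m : ℝ) ≤ |(t : ℝ)| ^ 2 * |(N : ℝ)| := by
      rw [sq_abs]; exact_mod_cast ht3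
    have h6 : (m : ℝ) ^ 3 ≤ (2 * u) ^ 2 * (2 * E ^ 3) := by
      calc (m : ℝ) ^ 3 = (m : ℝ) ^ 2 * m := by ring
        _ ≤ (m : ℝ) ^ 2 * (|(t : ℝ)| ^ 2 * |(N : ℝ)|) :=
            mul_le_mul_of_nonneg_left h5 (by positivity)
        _ = (m * |(t : ℝ)|) ^ 2 * |(N : ℝ)| := by ring
        _ ≤ (2 * u) ^ 2 * (2 * E ^ 3) :=
            mul_le_mul (pow_le_pow_left₀ (by positivity) htr 2) hNr hN0 (by positivity)
    have h7 : (u : ℝ) ^ 2 * (L ^ (3 * κ + 1)) ^ 2 ≤ (u : ℝ) ^ 2 * (8 * E ^ 3) := by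
      calc (u : ℝ) ^ 2 * (L ^ (3 * κ + 1)) ^ 2 = ((u : ℝ) * L ^ (3 * κ + 1)) ^ 2 := by ring
        _ ≤ (m : ℝ) ^ 3 := su
        _ ≤ (2 * u) ^ 2 * (2 * E ^ 3) := h6
        _ = _ := by ring
    have h8 : (L ^ (3 * κ + 1)) ^ 2 ≤ 8 * E ^ 3 := le_of_mul_le_mul_left h7 (by positivity)
    have h9 : L ^ (3 * κ + 1) ≤ (L ^ (3 * κ + 1)) ^ 2 :=
      le_self_pow₀ (by linarith) (by norm_num)
    linarith
  · have he4 : min e 4 = 4 := by omega
    have h5 : (m : ℝ) ≤ |(t : ℝ)| * |(N : ℝ)| := by exact_mod_cast ht4 h4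
    have h6 : (m : ℝ) ^ 2 ≤ (2 * u) * (2 * E ^ 3) := by
      calc (m : ℝ) ^ 2 = m * m := by ring
        _ ≤ m * (|(t : ℝ)| * |(N : ℝ)|) := mul_le_mul_of_nonneg_left h5 hm0.le
        _ = (m * |(t : ℝ)|) * |(N : ℝ)| := by ring
        _ ≤ (2 * u) * (2 * E ^ 3) := mul_le_mul htr hNr hN0 (by positivity)
    have h7 : (u : ℝ) * L ^ (3 * κ + 1) ≤ u * (4 * E ^ 3) := by
      calc (u : ℝ) * L ^ (3 * κ + 1) ≤ (m : ℝ) ^ 2 := su2
        _ ≤ (2 * u) * (2 * E ^ 3) := h6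
        _ = _ := by ring
    have h8 : L ^ (3 * κ + 1) ≤ 4 * E ^ 3 := le_of_mul_le_mul_left h7 (by positivity)
    have h9 : 0 < E ^ 3 := by positivity
    linarith

theorem result : ∃ K : ℕ, {v : ℕ × ℕ × ℕ | ∃ x y z p q r : ℕ, Solution x y z p q r ∧
    (Special (max x (max y z)) K x p y z ∨ Special (max x (max y z)) K y q x z ∨
      Special (max x (max y z)) K z r x y) ∧ v = (x ^ p, y ^ q, z ^ r)}.Finite := by
  obtain ⟨C, κ, hC, hb⟩ := Pool.Agent.X47.FC.exp_bound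
  refine ⟨3 * κ + 1, ?_⟩
  obtain ⟨L₀, hL₀⟩ : ∃ L₀, L₀ = max (8 * (C + 1) ^ 3 + 1) 5 := ⟨_, rfl⟩
  obtain ⟨H, hH⟩ : ∃ H : ℕ, Real.exp L₀ ≤ H := exists_nat_ge _
  refine (Pool.Agent.X47.FC.finite_values H).subset ?_
  rintro v ⟨x, y, z, p, q, r, hs, hcase, hv⟩
  obtain ⟨M, hM⟩ : ∃ M, M = max x (max y z) := ⟨_, rfl⟩
  rw [← hM] at hcase
  have hxM : x ≤ M := hM ▸ le_max_left _ _
  have hyM : y ≤ M := hM ▸ (le_max_left _ _).trans (le_max_right _ _)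
  have hzM : z ≤ M := hM ▸ (le_max_right _ _).trans (le_max_right _ _)
  rcases Nat.lt_or_ge H M with hlt | hge
  swap
  · exact ⟨x, y, z, p, q, r, hs, by omega, by omega, by omega, hv⟩
  exfalso
  have hMp : (0 : ℝ) < M := by
    have : 0 < M := by omega
    exact_mod_cast this
  obtain ⟨L, hL⟩ : ∃ L, L = Real.log M := ⟨_, rfl⟩
  have hLL : L₀ ≤ L := by
    rw [hL, Real.le_log_iff_exp_le hMp]
    refine hH.trans ?_
    exact_mod_cast hlt.le
  have hLC : 8 * (C + 1) ^ 3 < L := by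
    have := (le_max_left _ _).trans (hL₀ ▸ hLL)
    linarith
  have hL5 : 5 ≤ L := (le_max_right _ _).trans (hL₀ ▸ hLL)
  obtain ⟨k1, k2, k3⟩ := hb x y z p q r hs M (by exact_mod_cast hxM) (by exact_mod_cast hyM)
    (by exact_mod_cast hzM)
  rw [← hL] at k1 k2 k3
  obtain ⟨hx, hy, hz, -, hp, hq, hr, -, heq⟩ := hs
  have heq' : (x : ℤ) ^ p + (y : ℤ) ^ q = (z : ℤ) ^ r := by exact_mod_cast heq
  rcases hcase with h | h | h
  · exact contra (s₁ := -1) (s₂ := 1) hC hL hL5 hLC hx hy hz hq hr (Or.inr rfl) (Or.inl rfl)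
      (by linarith) k2 (fun _ => k3) h
  · exact contra (s₁ := -1) (s₂ := 1) hC hL hL5 hLC hy hx hz hp hr (Or.inr rfl) (Or.inl rfl)
      (by linarith) k1 (fun _ => k3) h
  · exact contra (s₁ := 1) (s₂ := 1) hC hL hL5 hLC hz hx hy hp hq (Or.inl rfl) (Or.inl rfl)
      (by linarith) k1 k2 h

end Pool.Agent.Results.MP_509488_nt.CongruentBases
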