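import Mathlib
import Pool.Agent.X47.FCBase

/-!
# The Fermat-Catalan conjecture when the bases of the summands are close to integral powers of the third

There is a constant `K` such that only finitely many value triples `(x ^ p, y ^ q, z ^ r)`, `z ≥ 3`, come
from solutions of the Fermat-Catalan equation `x ^ p + y ^ q = z ^ r` in which the relative distances
of `x` from some power `z ^ a` and of `y` from some power `z ^ b` (`a, b ≥ 1`) are at most
`(log max (x, y, z)) ^ (-K)`, and `r` is a prime or `a = b = 1`. The exponents `p`, `q`, `r`, `a`, `b` are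
free. The case `a = b = 1` concerns three bases in a short interval, for example in `[M, M + M ^ θ]` with
`θ < 1`.
-/

set_option autoImplicit false

namespace Pool.Agent.Results.MP_509488_nt.NearPowerBases

open Filter Topology

/-- `(x, y, z, p, q, r)` is a solution of the Fermat-Catalan equation: `x`, `y`, `z` are positive
integers with `gcd (x, y, z) = 1`, the exponents `p`, `q`, `r` are positive integers with
`1/p + 1/q + 1/r ≤ 1`, and `x ^ p + y ^ q = z ^ r`. -/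
def Solution (x y z p q r : ℕ) : Prop :=
  0 < x ∧ 0 < y ∧ 0 < z ∧ Nat.gcd x (Nat.gcd y z) = 1 ∧ 0 < p ∧ 0 < q ∧ 0 < r ∧
    (1 : ℚ) / p + 1 / q + 1 / r ≤ 1 ∧ x ^ p + y ^ q = z ^ r

/-- `u` is within relative distance `(log M) ^ (-K)` of `z ^ a`. -/
def Near (M K u z a : ℕ) : Prop :=
  |(u : ℝ) - (z : ℝ) ^ a| ≤ (z : ℝ) ^ a / Real.log M ^ K

theorem succ_pow (x k : ℕ) : x ^ (k + 2) + 2 * x ^ (k + 1) ≤ (x + 1) ^ (k + 2) := by
  have h1 : x ^ (k + 1) ≤ (x + 1) ^ (k + 1) := Nat.pow_le_pow_left (by omega) _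
  have h2 : x ^ (k + 1) + x ^ k ≤ (x + 1) ^ (k + 1) := by
    have h3 : x ^ k ≤ (x + 1) ^ k := Nat.pow_le_pow_left (by omega) _
    calc x ^ (k + 1) + x ^ k = x ^ k * (x + 1) := by ring
      _ ≤ (x + 1) ^ k * (x + 1) := Nat.mul_le_mul_right _ h3
      _ = _ := by ring
  calc x ^ (k + 2) + 2 * x ^ (k + 1) = (x ^ (k + 1) + x ^ k) * x + x ^ (k + 1) := by ring
    _ ≤ (x + 1) ^ (k + 1) * x + (x + 1) ^ (k + 1) :=
        Nat.add_le_add (Nat.mul_le_mul_right _ h2) h1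
    _ = _ := by ring

/-- The case in which `x ^ p` has the order of magnitude of `z ^ r`. -/
theorem no_solution {x y z q r b : ℕ} (hz3 : 3 ≤ z) (hr : 2 ≤ r) (hy0 : 0 < y ^ q)
    (bx : 31 / 32 * (z : ℝ) ^ r ≤ (x : ℝ) ^ r) (bx1 : 31 / 32 * (z : ℝ) ^ (r - 1) ≤ (x : ℝ) ^ (r - 1))
    (by1 : 31 / 32 * (z : ℝ) ^ (b * q) ≤ (y : ℝ) ^ q)
    (by2 : (y : ℝ) ^ q ≤ 33 / 32 * (z : ℝ) ^ (b * q)) : x ^ r + y ^ q ≠ z ^ r := by
  intro heq
  have hz3' : (3 : ℝ) ≤ z := by exact_mod_cast hz3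
  have hz1 : (1 : ℝ) ≤ z := by linarith
  have heq' : (x : ℝ) ^ r + (y : ℝ) ^ q = (z : ℝ) ^ r := by exact_mod_cast heq
  have hzr : (0 : ℝ) < (z : ℝ) ^ r := by positivity
  have hbq : b * q < r := by
    by_contra hcon
    have h1 : (z : ℝ) ^ r ≤ (z : ℝ) ^ (b * q) := pow_le_pow_right₀ hz1 (not_lt.1 hcon)
    linarith
  have hzx : x < z := by
    by_contra hcon
    have : z ^ r ≤ x ^ r := Nat.pow_le_pow_left (not_lt.1 hcon) r
    omega
  obtain ⟨k, rfl⟩ : ∃ k, r = k + 2 := ⟨r - 2, by omega⟩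
  have h2 := succ_pow x k
  have h3 : (x + 1) ^ (k + 2) ≤ z ^ (k + 2) := Nat.pow_le_pow_left hzx _
  have h4 : 2 * x ^ (k + 1) ≤ y ^ q := by omega
  have h5 : 2 * (x : ℝ) ^ (k + 1) ≤ (y : ℝ) ^ q := by exact_mod_cast h4
  have h6 : k + 2 - 1 = k + 1 := rfl
  rw [h6] at bx1
  have h7 : (z : ℝ) ^ (b * q) ≤ (z : ℝ) ^ (k + 1) := pow_le_pow_right₀ hz1 (by omega)
  have h8 : (0 : ℝ) < (z : ℝ) ^ (k + 1) := by positivity
  linarith

theorem result : ∃ K : ℕ, {v : ℕ × ℕ × ℕ | ∃ x y z p q r a b : ℕ, Solution x y z p q r ∧ 3 ≤ z ∧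
    0 < a ∧ 0 < b ∧ (r.Prime ∨ (a = 1 ∧ b = 1)) ∧ Near (max x (max y z)) K x z a ∧
    Near (max x (max y z)) K y z b ∧ v = (x ^ p, y ^ q, z ^ r)}.Finite := by
  obtain ⟨C, κ, hC, hb⟩ := Pool.Agent.X47.FC.exp_bound
  refine ⟨κ + 1, ?_⟩
  obtain ⟨L₀, hL₀⟩ : ∃ L₀, L₀ = max (64 * C) 4 := ⟨_, rfl⟩
  obtain ⟨H, hH⟩ : ∃ H : ℕ, Real.exp L₀ ≤ H := exists_nat_ge _
  refine (Pool.Agent.X47.FC.finite_values H).subset ?_
  rintro v ⟨x, y, z, p, q, r, a, b, hs, hz3, ha, hb0, hcase, nx, ny, hv⟩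
  obtain ⟨M, hM⟩ : ∃ M, M = max x (max y z) := ⟨_, rfl⟩
  rw [← hM] at nx ny
  have hxM : x ≤ M := hM ▸ le_max_left _ _
  have hyM : y ≤ M := hM ▸ (le_max_left _ _).trans (le_max_right _ _)
  have hzM : z ≤ M := hM ▸ (le_max_right _ _).trans (le_max_right _ _)
  rcases Nat.lt_or_ge H M with hlt | hge
  swap
  · exact ⟨x, y, z, p, q, r, hs, by omega, by omega, by omega, hv⟩
  exfalso
  have hMp : (0 : ℝ) < M := by
    have : 0 < M := by omega
    exact_mod_cast this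
  obtain ⟨L, hL⟩ : ∃ L, L = Real.log M := ⟨_, rfl⟩
  have hLL : L₀ ≤ L := by
    rw [hL, Real.le_log_iff_exp_le hMp]
    refine hH.trans ?_
    exact_mod_cast hlt.le
  have hL8 : 64 * C ≤ L := (le_max_left _ _).trans (hL₀ ▸ hLL)
  have hL4 : 4 ≤ L := (le_max_right _ _).trans (hL₀ ▸ hLL)
  have hL0 : 0 < L := by linarith
  have hδ4 : 1 / L ^ (κ + 1) ≤ 1 / 4 := by
    apply one_div_le_one_div_of_le (by norm_num)
    calc (4 : ℝ) ≤ L := hL4
      _ ≤ L ^ (κ + 1) := le_self_pow₀ (by linarith) (by omega)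
  have hz3' : (3 : ℝ) ≤ z := by exact_mod_cast hz3
  have hz1 : (1 : ℝ) ≤ z := by linarith
  have hnear : ∀ u c : ℕ, 0 < c → Near M (κ + 1) u z c →
      |(u : ℝ) - (z : ℝ) ^ c| ≤ 1 / L ^ (κ + 1) * (z : ℝ) ^ c ∧ 2 ≤ u := by
    intro u c hc hn
    unfold Near at hn
    rw [← hL] at hn
    have h1 : |(u : ℝ) - (z : ℝ) ^ c| ≤ 1 / L ^ (κ + 1) * (z : ℝ) ^ c := by
      rw [one_div, inv_mul_eq_div]; exact hn
    refine ⟨h1, ?_⟩
    have h2 := (abs_le.1 h1).1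
    have h3 : (z : ℝ) ≤ (z : ℝ) ^ c := le_self_pow₀ hz1 hc.ne'
    have h4 : 1 / L ^ (κ + 1) * (z : ℝ) ^ c ≤ 1 / 4 * (z : ℝ) ^ c :=
      mul_le_mul_of_nonneg_right hδ4 (by positivity)
    have h5 : (1 : ℝ) < u := by linarith
    exact_mod_cast h5
  obtain ⟨nx1, hx2⟩ := hnear x a ha nx
  obtain ⟨ny1, hy2⟩ := hnear y b hb0 ny
  obtain ⟨k1, k2, k3⟩ := hb x y z p q r hs M (by exact_mod_cast hxM) (by exact_mod_cast hyM)
    (by exact_mod_cast hzM)
  rw [← hL] at k1 k2 k3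
  have hp := k1 hx2
  have hq := k2 hy2
  have hr := k3
  have hpow : ∀ u c e : ℕ, |(u : ℝ) - (z : ℝ) ^ c| ≤ 1 / L ^ (κ + 1) * (z : ℝ) ^ c →
      (e : ℝ) ≤ C * L ^ κ → 31 / 32 * (z : ℝ) ^ (c * e) ≤ (u : ℝ) ^ e ∧
        (u : ℝ) ^ e ≤ 33 / 32 * (z : ℝ) ^ (c * e) := by
    intro u c e h1 he
    have h4 : (e : ℝ) * (1 / L ^ (κ + 1)) ≤ 1 / 64 := by
      calc (e : ℝ) * (1 / L ^ (κ + 1)) ≤ (C * L ^ κ) * (1 / L ^ (κ + 1)) :=
            mul_le_mul_of_nonneg_right he (by positivity)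
        _ = C / L := by rw [pow_succ]; field_simp
        _ ≤ 1 / 64 := by rw [div_le_iff₀ hL0]; linarith
    have h5 := Pool.Agent.X47.FC.pow_near (e := e) (by positivity) h1 (by positivity)
      (by linarith)
    rw [← pow_mul] at h5
    have h7 : 2 * (e : ℝ) * (1 / L ^ (κ + 1)) * (z : ℝ) ^ (c * e) ≤ 1 / 32 * (z : ℝ) ^ (c * e) :=
      mul_le_mul_of_nonneg_right (by linarith) (by positivity)
    have h8 := abs_le.1 h5
    constructor <;> linarith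
  obtain ⟨x1, x2⟩ := hpow x a p nx1 hp
  obtain ⟨y1, y2⟩ := hpow y b q ny1 hq
  have heq := hs.2.2.2.2.2.2.2.2
  have heq' : (x : ℝ) ^ p + (y : ℝ) ^ q = (z : ℝ) ^ r := by exact_mod_cast heq
  have hcmp : ∀ i j : ℕ, i < j → 3 * (z : ℝ) ^ i ≤ (z : ℝ) ^ j := by
    intro i j hij
    calc 3 * (z : ℝ) ^ i ≤ z * (z : ℝ) ^ i := by gcongr
      _ = (z : ℝ) ^ (i + 1) := by ring
      _ ≤ (z : ℝ) ^ j := pow_le_pow_right₀ hz1 hij
  have hx0 : (0 : ℝ) < (z : ℝ) ^ (a * p) := by positivity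
  have hy0 : (0 : ℝ) < (z : ℝ) ^ (b * q) := by positivity
  have hz0 : (0 : ℝ) < (z : ℝ) ^ r := by positivity
  obtain ⟨g1, g2, g3⟩ := Pool.Agent.X47.FC.Solution.two_le hs
  have hor : a * p = r ∨ b * q = r := by
    rcases lt_trichotomy (a * p) r with h1 | h1 | h1
    · rcases lt_trichotomy (b * q) r with h2 | h2 | h2
      · exfalso
        have := hcmp _ _ h1
        have := hcmp _ _ h2
        linarith
      · exact Or.inr h2
      · exfalso
        have := hcmp _ _ h2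
        linarith
    · exact Or.inl h1
    · exfalso
      have := hcmp _ _ h1
      linarith
  have hone : ∀ c e : ℕ, 2 ≤ e → c * e = r → (r.Prime ∨ c = 1) → c = 1 := by
    intro c e he hce h
    rcases h with h | h
    · rw [← hce] at h
      rcases Nat.prime_mul_iff.1 h with ⟨-, h2⟩ | ⟨-, h2⟩
      · omega
      · exact h2
    · exact h
  rcases hor with h1 | h1
  · have ha1 : a = 1 := hone a p g1 h1 (hcase.imp id fun h => h.1)
    subst ha1
    rw [one_mul] at h1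
    subst h1
    rw [one_mul] at x1
    have x3 := (hpow x 1 (p - 1) nx1 (le_trans (by exact_mod_cast Nat.sub_le _ _) hp)).1
    rw [one_mul] at x3
    exact no_solution hz3 g1 (Nat.pow_pos hs.2.1) x1 x3 y1 y2 heq
  · have hb1 : b = 1 := hone b q g2 h1 (hcase.imp id fun h => h.2)
    subst hb1
    rw [one_mul] at h1
    subst h1
    rw [one_mul] at y1
    have y3 := (hpow y 1 (q - 1) ny1 (le_trans (by exact_mod_cast Nat.sub_le _ _) hq)).1
    rw [one_mul] at y3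
    exact no_solution hz3 g2 (Nat.pow_pos hs.1) y1 y3 x1 x2 (by rw [add_comm]; exact heq)

end Pool.Agent.Results.MP_509488_nt.NearPowerBases
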