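import Mathlib
import Pool.Agent.X47.FCBal

/-!
# The Fermat-Catalan equation along polynomial curves, all exponents free

Let `f`, `g`, `h` be nonconstant real polynomials without a common factor.

* The number of real parameters `t` with `|t| ≤ N` such that `f(t)`, `g(t)`, `h(t)` are the three bases
  of a solution of the Fermat-Catalan equation is at most `C (log N) ^ K`.
* If the leading coefficients of `f`, `g`, `h` are `τ ^ deg f`, `τ ^ deg g`, `τ ^ deg h` for some
  `τ > 0` (for example if `f`, `g`, `h` are monic, or if they have the same degree and the same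
  positive leading coefficient), then there are only FINITELY many parameters `t ≥ 0` and only
  finitely many value triples.

The exponents are completely free. Proof: the exponents are at most `C (log t) ^ κ` (linear forms in
two logarithms); in the balanced case two of the three terms have the same order of magnitude and the
difference of the corresponding powers of two polynomials, compared with the size of the third term,
bounds all exponents by a constant; what remains is excluded by the Mason-Stothers theorem.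
-/

set_option autoImplicit false

namespace Pool.Agent.Results.MP_509488_nt.PolynomialCurves

open Polynomial

/-- `(x, y, z, p, q, r)` is a solution of the Fermat-Catalan equation: `x`, `y`, `z` are positive
integers with `gcd (x, y, z) = 1`, the exponents `p`, `q`, `r` are positive integers with
`1/p + 1/q + 1/r ≤ 1`, and `x ^ p + y ^ q = z ^ r`. -/
def Solution (x y z p q r : ℕ) : Prop :=
  0 < x ∧ 0 < y ∧ 0 < z ∧ Nat.gcd x (Nat.gcd y z) = 1 ∧ 0 < p ∧ 0 < q ∧ 0 < r ∧
    (1 : ℚ) / p + 1 / q + 1 / r ≤ 1 ∧ x ^ p + y ^ q = z ^ r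

/-- The real numbers `t` such that `f(t)`, `g(t)`, `h(t)` are the bases of a solution. -/
def Parameters (f g h : ℝ[X]) : Set ℝ :=
  {t | ∃ x y z p q r : ℕ, Solution x y z p q r ∧ f.eval t = x ∧ g.eval t = y ∧ h.eval t = z}

/-- The value triples `(x ^ p, y ^ q, z ^ r)` of the solutions whose bases are
`f(t)`, `g(t)`, `h(t)` for some real `t ≥ 0`. -/
def Values (f g h : ℝ[X]) : Set (ℕ × ℕ × ℕ) :=
  {v | ∃ (t : ℝ) (x y z p q r : ℕ), 0 ≤ t ∧ Solution x y z p q r ∧ f.eval t = x ∧ g.eval t = y ∧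
    h.eval t = z ∧ v = (x ^ p, y ^ q, z ^ r)}

theorem result (f g h : ℝ[X]) (hf : 0 < f.natDegree) (hg : 0 < g.natDegree) (hh : 0 < h.natDegree)
    (hc : ∀ d : ℝ[X], d ∣ f → d ∣ g → d ∣ h → IsUnit d) :
    (∃ (C : ℝ) (K : ℕ), ∀ N : ℝ, 2 ≤ N →
      (Parameters f g h ∩ Set.Icc (-N) N).Finite ∧
      (((Parameters f g h ∩ Set.Icc (-N) N).ncard : ℕ) : ℝ) ≤ C * Real.log N ^ K) ∧
    (∀ τ : ℝ, 0 < τ → f.leadingCoeff = τ ^ f.natDegree → g.leadingCoeff = τ ^ g.natDegree →
      h.leadingCoeff = τ ^ h.natDegree →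
        (Parameters f g h ∩ Set.Ici 0).Finite ∧ (Values f g h).Finite) := by
  obtain ⟨C, K, hcount⟩ := Pool.Agent.X47.FC.count f g h hf hg hh hc
  have hset : ∀ N : ℝ, Parameters f g h ∩ Set.Icc (-N) N =
      {t : ℝ | |t| ≤ N ∧ ∃ x y z p q r : ℕ, Pool.Agent.X47.FC.Solution x y z p q r ∧
        Pool.Agent.X47.FC.OnCurve f g h t x y z} := by
    intro N
    ext t
    simp only [Set.mem_inter_iff, Set.mem_Icc, Set.mem_setOf_eq, Parameters, abs_le]
    constructor
    · rintro ⟨⟨x, y, z, p, q, r, hs, h1, h2, h3⟩, ht⟩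
      exact ⟨ht, x, y, z, p, q, r, hs, h1, h2, h3⟩
    · rintro ⟨ht, x, y, z, p, q, r, hs, h1, h2, h3⟩
      exact ⟨⟨x, y, z, p, q, r, hs, h1, h2, h3⟩, ht⟩
  refine ⟨⟨C, K, fun N hN => ?_⟩, ?_⟩
  · rw [hset N]
    exact hcount N hN
  · intro τ hτ lf lg lh
    obtain ⟨T, B, hTB⟩ := Pool.Agent.X47.FC.balanced f g h hf hg hh τ hτ lf lg lh
    obtain ⟨F, -, hF⟩ := Pool.Agent.X47.FC.cover f g h hf hg hh hc B
    have hfin : (Parameters f g h ∩ Set.Ici 0).Finite := by
      have h1 := (hcount (max T 2) (le_max_right _ _)).1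
      refine (h1.union F.finite_toSet).subset ?_
      rintro t ⟨⟨x, y, z, p, q, r, hs, e1, e2, e3⟩, ht0⟩
      rcases le_total t (max T 2) with h2 | h2
      · left
        exact ⟨by rw [abs_of_nonneg ht0]; exact h2, x, y, z, p, q, r, hs, e1, e2, e3⟩
      · right
        obtain ⟨b1, b2, b3⟩ := hTB t ((le_max_left _ _).trans h2) x y z p q r hs ⟨e1, e2, e3⟩
        exact hF t x y z p q r hs ⟨e1, e2, e3⟩ (fun _ => b1) (fun _ => b2) b3
    refine ⟨hfin, ?_⟩
    have hval : ∀ t : ℝ, {v : ℕ × ℕ × ℕ | ∃ x y z p q r : ℕ, Solution x y z p q r ∧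
        f.eval t = x ∧ g.eval t = y ∧ h.eval t = z ∧ v = (x ^ p, y ^ q, z ^ r)}.Finite := by
      intro t
      obtain ⟨H, hH⟩ : ∃ H : ℕ, |f.eval t| + |g.eval t| + |h.eval t| ≤ H := exists_nat_ge _
      refine (Pool.Agent.X47.FC.finite_values H).subset ?_
      rintro v ⟨x, y, z, p, q, r, hs, e1, e2, e3, hv⟩
      rw [e1, e2, e3, Nat.abs_cast, Nat.abs_cast, Nat.abs_cast] at hH
      have hH' : x + y + z ≤ H := by exact_mod_cast hH
      exact ⟨x, y, z, p, q, r, hs, by omega, by omega, by omega, hv⟩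
    refine (hfin.biUnion (fun t _ => hval t)).subset ?_
    rintro v ⟨t, x, y, z, p, q, r, ht, hs, e1, e2, e3, hv⟩
    simp only [Set.mem_iUnion]
    exact ⟨t, ⟨⟨x, y, z, p, q, r, hs, e1, e2, e3⟩, ht⟩, x, y, z, p, q, r, hs, e1, e2, e3, hv⟩

end Pool.Agent.Results.MP_509488_nt.PolynomialCurves
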