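import Mathlib
import Pool.Agent.H326R2.ULevel
import Pool.Agent.H326R2.SFour
import Pool.Agent.H326R2.TabFour
import Pool.Agent.H326R2.TabU

/-!
# Theorems of Sophie Germain's type for the equations `X ^ s + Y ^ s = Z ^ p` and
`X ^ p + Y ^ s = Z ^ s` when two of the three bases are squares

The Fermat-Catalan equation with prime exponents, two equal exponents `s` and a different third
exponent `p`, for bases which are squares at the exponents `s`, i.e. `x ^ (2 s) + y ^ (2 s) = Z ^ p`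
and `X ^ p + y ^ (2 s) = z ^ (2 s)`. The size of the bases is not bounded.

* If `s ≥ 5` is a Sophie Germain prime, `p ≢ 0, 1` modulo `s` and `p ≢ 0, 1, -1` modulo `2 s + 1` (for
  example `p < s`) then the first case has no solutions: in every primitive solution of
  `X ^ s + Y ^ s = Z ^ p` with squares `X`, `Y` the prime `p` divides `X Y`.
* If `p ≥ 5` is a Sophie Germain prime, `s ≢ 0, 1` modulo `p` and `s ≢ 0, 1, -1` modulo `2 p + 1` (for
  example `s < p`) then in every primitive solution of `X ^ p + Y ^ s = Z ^ s` with even `X` and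
  squares `Y`, `Z` the prime `s` divides `X`.
* The same holds for all pairs of different primes from `5` to `97`, with sixteen exceptions for the
  first equation and two for the second one.

The method: a descent over `ℤ[i]` (over `ℤ` for the second equation) leads to a system which is
contradictory modulo an auxiliary prime.
-/

namespace Pool.Agent.Results.MP_509488_nt.SophieGermainSquares

open Pool.Agent.H326R2

/-- A solution of the equation `x ^ p + y ^ q = z ^ r` in coprime positive integers `x, y, z`, with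
prime exponents such that `1 / p + 1 / q + 1 / r ≤ 1`. -/
def Solution (x y z p q r : ℕ) : Prop :=
  0 < x ∧ 0 < y ∧ 0 < z ∧ Nat.gcd (Nat.gcd x y) z = 1 ∧ p.Prime ∧ q.Prime ∧ r.Prime ∧
  (1 : ℚ) / p + 1 / q + 1 / r ≤ 1 ∧ x ^ p + y ^ q = z ^ r

/-- `q` is not `0`, `1` or `-1` modulo `M` -/
def Away (M q : ℕ) : Prop := ¬ M ∣ q ∧ ¬ M ∣ q - 1 ∧ ¬ M ∣ q + 1

/-- `p` divides `X Y` for the solutions of `X ^ s + Y ^ s = Z ^ p` with squares `X`, `Y` -/
def FirstCaseSum (s p : ℕ) : Prop :=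
  ∀ X Y Z : ℕ, Solution X Y Z s s p → IsSquare X → IsSquare Y → p ∣ X * Y

/-- `s` divides `X` for the solutions of `X ^ p + Y ^ s = Z ^ s` with even `X` and squares `Y`, `Z` -/
def FirstCaseDiff (p s : ℕ) : Prop :=
  ∀ X Y Z : ℕ, Solution X Y Z p s s → IsSquare Y → IsSquare Z → 2 ∣ X → s ∣ X

lemma cast_ne_zero {M q : ℕ} (h : ¬ M ∣ q) : (q : ZMod M) ≠ 0 := by
  intro h1
  exact h ((ZMod.natCast_eq_zero_iff _ _).1 h1)

lemma cast_ne_one {M q : ℕ} (hq : 1 ≤ q) (h : ¬ M ∣ q - 1) : (q : ZMod M) ≠ 1 := by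
  intro h1
  apply h
  rw [← ZMod.natCast_eq_zero_iff, Nat.cast_sub hq, h1]
  simp

lemma cast_ne_neg_one {M q : ℕ} (h : ¬ M ∣ q + 1) : (q : ZMod M) ≠ -1 := by
  intro h1
  apply h
  rw [← ZMod.natCast_eq_zero_iff, Nat.cast_add, h1]
  simp

/-- the bases of a solution are pairwise coprime -/
lemma coprime_of {x y z p q r : ℕ} (h : Solution x y z p q r) : Nat.Coprime x y := by
  obtain ⟨h1, h2, h3, h4, h5, h6, h7, h8, h9⟩ := h
  rw [Nat.coprime_iff_gcd_eq_one]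
  by_contra hne
  obtain ⟨l, hl, hd⟩ := Nat.exists_prime_and_dvd hne
  have hx : l ∣ x := hd.trans (Nat.gcd_dvd_left _ _)
  have hy : l ∣ y := hd.trans (Nat.gcd_dvd_right _ _)
  have hz : l ∣ z := by
    apply hl.dvd_of_dvd_pow (n := r)
    rw [← h9]
    exact dvd_add (hx.trans (dvd_pow_self _ h5.ne_zero)) (hy.trans (dvd_pow_self _ h6.ne_zero))
  have := Nat.dvd_gcd hd hz
  rw [h4] at this
  exact hl.one_lt.ne' (Nat.dvd_one.1 this)

lemma sum_of {s p t : ℕ} (hs : Odd s) (hp : p.Prime) (hpo : Odd p) (ht : t.Prime)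
    (haux : AuxU s p t) : FirstCaseSum s p := by
  rintro X Y Z hS ⟨x, rfl⟩ ⟨y, rfl⟩
  have hco := coprime_of hS
  obtain ⟨-, -, -, -, -, -, -, -, h⟩ := hS
  by_contra hcon
  have hx : ¬ p ∣ x := fun h1 => hcon (Dvd.dvd.mul_right (Dvd.dvd.mul_right h1 _) _)
  have hy : ¬ p ∣ y := fun h1 => hcon (Dvd.dvd.mul_left (Dvd.dvd.mul_right h1 _) _)
  refine main_u s p t hs hpo ht haux (x : ℤ) (y : ℤ) (Z : ℤ) ?_ ?_ ?_ ?_
  · exact Nat.isCoprime_iff_coprime.2 ((Nat.Prime.coprime_iff_not_dvd hp).2 hx).symm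
  · exact Nat.isCoprime_iff_coprime.2 ((Nat.Prime.coprime_iff_not_dvd hp).2 hy).symm
  · exact Nat.isCoprime_iff_coprime.2 (Nat.Coprime.coprime_dvd_left (Dvd.intro _ rfl)
      (Nat.Coprime.coprime_dvd_right (Dvd.intro _ rfl) hco))
  · have h1 : ((x : ℤ) * x) ^ s + ((y : ℤ) * y) ^ s = (Z : ℤ) ^ p := by exact_mod_cast h
    rw [← h1]
    ring

lemma diff_of {p s t : ℕ} (hp : Odd p) (hp3 : 3 ≤ p) (hs : s.Prime) (hso : Odd s) (ht : t.Prime)
    (ht2 : t ≠ 2) (haux : Aux 4 p s t) : FirstCaseDiff p s := by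
  rintro X Y Z hS ⟨y, rfl⟩ ⟨z, rfl⟩ h2
  have hco := coprime_of hS
  obtain ⟨-, -, -, -, -, -, -, -, h⟩ := hS
  by_contra hcon
  refine main_four p s t hp hp3 hso ht ht2 haux (X : ℤ) (y : ℤ) (z : ℤ) ?_ ?_ ?_ ?_
  · obtain ⟨j, hj⟩ := h2
    exact ⟨j, by rw [hj]; push_cast; ring⟩
  · exact Nat.isCoprime_iff_coprime.2 ((Nat.Prime.coprime_iff_not_dvd hs).2 hcon).symm
  · exact Nat.isCoprime_iff_coprime.2 (Nat.Coprime.coprime_dvd_right (Dvd.intro _ rfl) hco)
  · have h1 : (X : ℤ) ^ p + ((y : ℤ) * y) ^ s = ((z : ℤ) * z) ^ s := by exact_mod_cast h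
    have e1 : ((y : ℤ) * y) ^ s = ((y : ℤ) ^ s) ^ 2 := by ring
    have e2 : ((z : ℤ) * z) ^ s = ((z : ℤ) ^ s) ^ 2 := by ring
    rw [e1, e2] at h1
    exact h1

/-- the smaller odd primes satisfy the conditions -/
lemma away_of_lt {M q : ℕ} (hq : 3 ≤ q) (hqo : Odd q) (hMo : Odd M) (h : q < M) : Away M q := by
  refine ⟨fun h1 => ?_, fun h1 => ?_, fun h1 => ?_⟩
  · have := Nat.le_of_dvd (by omega) h1
    omega
  · have := Nat.le_of_dvd (by omega) h1
    omega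
  · have h3 := Nat.le_of_dvd (by omega) h1
    have h4 : M = q + 1 := by omega
    rw [h4] at hMo
    rcases hMo with ⟨j, hj⟩
    rcases hqo with ⟨i, hi⟩
    omega

theorem result :
    -- `X ^ s + Y ^ s = Z ^ p`, Sophie Germain primes `s`
    (∀ s p : ℕ, s.Prime → 5 ≤ s → (2 * s + 1).Prime → p.Prime → p ≠ 2 → ¬ s ∣ p → ¬ s ∣ p - 1 →
      Away (2 * s + 1) p → FirstCaseSum s p) ∧
    -- `X ^ p + Y ^ s = Z ^ s`, Sophie Germain primes `p`
    (∀ p s : ℕ, p.Prime → 5 ≤ p → (2 * p + 1).Prime → s.Prime → s ≠ 2 → ¬ p ∣ s → ¬ p ∣ s - 1 →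
      Away (2 * p + 1) s → FirstCaseDiff p s) ∧
    -- in particular all smaller odd primes
    (∀ p q : ℕ, p.Prime → 5 ≤ p → (2 * p + 1).Prime → q.Prime → q ≠ 2 → q < p →
      FirstCaseSum p q ∧ FirstCaseDiff p q) ∧
    -- `X ^ s + Y ^ s = Z ^ p`, all pairs of different primes from `5` to `97`
    (∀ s p : ℕ, s.Prime → p.Prime → 5 ≤ s → 5 ≤ p → s < 100 → p < 100 → s ≠ p →
      (s, p) ∉ [((5 : ℕ), (11 : ℕ)), (5, 31), (5, 41), (5, 61), (5, 71), (7, 29), (7, 43), (7, 71),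
        (11, 23), (11, 67), (11, 89), (13, 53), (13, 79), (23, 47), (29, 59), (41, 83)] →
      FirstCaseSum s p) ∧
    -- `X ^ p + Y ^ s = Z ^ s`, all pairs of different primes from `5` to `97`
    (∀ p s : ℕ, p.Prime → s.Prime → 5 ≤ p → 5 ≤ s → p < 100 → s < 100 → p ≠ s →
      (p, s) ∉ [((5 : ℕ), (71 : ℕ)), (11, 89)] → FirstCaseDiff p s) := by
  have k1 : ∀ s p : ℕ, s.Prime → 5 ≤ s → (2 * s + 1).Prime → p.Prime → p ≠ 2 → ¬ s ∣ p →
      ¬ s ∣ p - 1 → Away (2 * s + 1) p → FirstCaseSum s p := by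
    intro s p hs hs5 ht hp hp2 h0 h1 h2
    have hpo : Odd p := hp.odd_of_ne_two hp2
    exact sum_of (hs.odd_of_ne_two (by omega)) hp hpo ht
      (auxU_sg s p hs hs5 ht hpo (cast_ne_zero h0) (cast_ne_one hp.one_le h1)
        (cast_ne_zero h2.1) (cast_ne_one hp.one_le h2.2.1) (cast_ne_neg_one h2.2.2))
  have k2 : ∀ p s : ℕ, p.Prime → 5 ≤ p → (2 * p + 1).Prime → s.Prime → s ≠ 2 → ¬ p ∣ s →
      ¬ p ∣ s - 1 → Away (2 * p + 1) s → FirstCaseDiff p s := by
    intro p s hp hp5 ht hs hs2 h0 h1 h2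
    have hso : Odd s := hs.odd_of_ne_two hs2
    exact diff_of (hp.odd_of_ne_two (by omega)) (by omega) hs hso ht (by omega)
      (aux_four p s hp hp5 ht hso (cast_ne_zero h0) (cast_ne_one hs.one_le h1)
        (cast_ne_zero h2.1) (cast_ne_one hs.one_le h2.2.1) (cast_ne_neg_one h2.2.2))
  refine ⟨k1, k2, ?_, ?_, ?_⟩
  · intro p q hp hp5 ht hq hq2 hqp
    have h2 := hq.two_le
    have hqo : Odd q := hq.odd_of_ne_two hq2
    have a1 := away_of_lt (by omega) hqo (hp.odd_of_ne_two (by omega)) hqp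
    have a2 : Away (2 * p + 1) q := away_of_lt (by omega) hqo ⟨p, rfl⟩ (by omega)
    exact ⟨k1 p q hp hp5 ht hq hq2 a1.1 a1.2.1 a2, k2 p q hp hp5 ht hq hq2 a1.1 a1.2.1 a2⟩
  · intro s p hs hp hs5 hp5 hs1 hp1 hsp hexc
    obtain ⟨t, P, ht, ht2, hs0, hP, hc⟩ :=
      tab_spec tabU_ok tabU_cov s p hs hp hs5 hp5 hs1 hp1 hsp hexc
    exact sum_of (hs.odd_of_ne_two (by omega)) hp (hp.odd_of_ne_two (by omega)) ht
      (chkU_sound hs0 ht P hP hc)
  · intro p s hp hs hp5 hs5 hp1 hs1 hps hexc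
    obtain ⟨t, P, ht, ht2, hp0, hP, hc⟩ :=
      tab_spec tabFour_ok tabFour_cov p s hp hs hp5 hs5 hp1 hs1 hps hexc
    exact diff_of (hp.odd_of_ne_two (by omega)) (by omega) hs (hs.odd_of_ne_two (by omega)) ht ht2
      (aux_sound hp0 ht P hP hc)

end Pool.Agent.Results.MP_509488_nt.SophieGermainSquares
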